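import Mathlib

/-!
# An explicit nilpotent matrix of type (3,2,...) complementary to a parabolic: the key lemma

`E n` is the matrix `v_0 ↦ ∑ (odd positions ≤ a) + ∑ (positions n - j, j even or j = k)`,
`v_c ↦ v_(n-c)` for `1 ≤ c ≤ a`, and `v_c ↦ 0` for `c > a`, where `a = (n-1)/2`, `k = n-1-a`.
-/

set_option autoImplicit false

open Matrix Finset

namespace Pool.Agent.Q21.FPc

variable {K : Type*} [Field K] {n : ℕ}

/-- `a = ⌊(n-1)/2⌋` -/
def aa (n : ℕ) : ℕ := (n - 1) / 2

/-- the positions which occur in the image of `v_0` -/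
def Chi (n r : ℕ) : Prop :=
  (r ≤ aa n ∧ r % 2 = 1) ∨ (aa n < r ∧ ((n - r) % 2 = 0 ∨ r = aa n + 1))

instance : DecidablePred (Chi n) := fun r => by unfold Chi; infer_instance

/-- the first column of `E` -/
def E1 (K : Type*) [Field K] (n : ℕ) : Matrix (Fin n) (Fin n) K :=
  fun r c => if (c : ℕ) = 0 ∧ Chi n r then 1 else 0

/-- the other columns of `E` -/
def E2 (K : Type*) [Field K] (n : ℕ) : Matrix (Fin n) (Fin n) K :=
  fun r c => if 1 ≤ (c : ℕ) ∧ (c : ℕ) ≤ aa n ∧ (r : ℕ) + c = n then 1 else 0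

/-- the nilpotent matrix -/
def E (K : Type*) [Field K] (n : ℕ) : Matrix (Fin n) (Fin n) K := E1 K n + E2 K n

/-- the dimensions of the members of the flag -/
def Lam (n l : ℕ) : Prop :=
  (l ≤ aa n + 1 ∧ l % 2 = 1) ∨ (aa n + 1 ≤ l ∧ (n - l) % 2 = 0)

/-- the matrices which preserve the flag -/
def InP (x : Matrix (Fin n) (Fin n) K) : Prop :=
  ∀ l, Lam n l → ∀ r c : Fin n, l ≤ r → (c : ℕ) < l → x r c = 0

theorem zE2 (z : Matrix (Fin n) (Fin n) K) (r c c' : Fin n) (h1 : 1 ≤ (c : ℕ))
    (h2 : (c : ℕ) ≤ aa n) (h3 : (c' : ℕ) + c = n) : (z * E2 K n) r c = z r c' := by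
  rw [Matrix.mul_apply, Finset.sum_eq_single c']
  · simp [E2, h1, h2, h3]
  · intro m _ hm
    have : ¬ ((m : ℕ) + c = n) := fun h => hm (Fin.ext (by omega))
    simp [E2, this]
  · intro h; exact absurd (Finset.mem_univ _) h

theorem zE2_out (z : Matrix (Fin n) (Fin n) K) (r c : Fin n)
    (h : ¬ (1 ≤ (c : ℕ) ∧ (c : ℕ) ≤ aa n)) : (z * E2 K n) r c = 0 := by
  rw [Matrix.mul_apply]
  refine Finset.sum_eq_zero fun m _ => ?_
  have : ¬ (1 ≤ (c : ℕ) ∧ (c : ℕ) ≤ aa n ∧ (m : ℕ) + c = n) := fun h' => h ⟨h'.1, h'.2.1⟩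
  simp [E2, this]

theorem zE1_out (z : Matrix (Fin n) (Fin n) K) (r c : Fin n)
    (h : (c : ℕ) ≠ 0) : (z * E1 K n) r c = 0 := by
  rw [Matrix.mul_apply]
  exact Finset.sum_eq_zero fun m _ => by simp [E1, h]

theorem zE1 (z : Matrix (Fin n) (Fin n) K) (r c : Fin n)
    (h : (c : ℕ) = 0) : (z * E1 K n) r c = ∑ m : Fin n, if Chi n m then z r m else 0 := by
  rw [Matrix.mul_apply]
  exact Finset.sum_congr rfl fun m _ => by simp [E1, h]

theorem E1z (z : Matrix (Fin n) (Fin n) K) (o r c : Fin n) (ho : (o : ℕ) = 0) :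
    (E1 K n * z) r c = if Chi n r then z o c else 0 := by
  rw [Matrix.mul_apply, Finset.sum_eq_single o]
  · simp [E1, ho]
  · intro m _ hm
    have : ¬ ((m : ℕ) = 0) := fun h => hm (Fin.ext (by omega))
    simp [E1, this]
  · intro h; exact absurd (Finset.mem_univ _) h

theorem E2z (z : Matrix (Fin n) (Fin n) K) (r r' c : Fin n) (h : (r : ℕ) + r' = n)
    (h1 : 1 ≤ (r' : ℕ)) (h2 : (r' : ℕ) ≤ aa n) : (E2 K n * z) r c = z r' c := by
  rw [Matrix.mul_apply, Finset.sum_eq_single r']
  · simp [E2, h1, h2, h]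
  · intro m _ hm
    have : ¬ ((r : ℕ) + m = n) := fun h => hm (Fin.ext (by omega))
    simp [E2, this]
  · intro h; exact absurd (Finset.mem_univ _) h

theorem E2z_out (z : Matrix (Fin n) (Fin n) K) (r c : Fin n) (h : aa n < n - r) :
    (E2 K n * z) r c = 0 := by
  rw [Matrix.mul_apply]
  refine Finset.sum_eq_zero fun m _ => ?_
  have : ¬ (1 ≤ (m : ℕ) ∧ (m : ℕ) ≤ aa n ∧ (r : ℕ) + m = n) := fun h' => by
    obtain ⟨h1, h2, h3⟩ := h'
    omega
  simp [E2, this]

/-- the key lemma -/
theorem key (hn : 3 ≤ n) (z : Matrix (Fin n) (Fin n) K) (hP : InP z)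
    (hc : z * E K n = E K n * z) (h0 : ∀ o : Fin n, (o : ℕ) = 0 → z o o = 0) : z = 0 := by
  have ha : aa n = (n - 1) / 2 := rfl
  generalize hA : aa n = a at *
  have hc' : ∀ r c, (z * E1 K n) r c + (z * E2 K n) r c = (E1 K n * z) r c + (E2 K n * z) r c := by
    intro r c
    have := congrFun (congrFun hc r) c
    simpa [E, Matrix.mul_add, Matrix.add_mul] using this
  obtain ⟨o, ho⟩ : ∃ o : Fin n, (o : ℕ) = 0 := ⟨⟨0, by omega⟩, rfl⟩
  obtain ⟨w, hw⟩ : ∃ w : Fin n, (w : ℕ) = 1 := ⟨⟨1, by omega⟩, rfl⟩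
  have hrefl : ∀ c : Fin n, 1 ≤ (c : ℕ) → ∃ c' : Fin n, (c' : ℕ) + c = n := fun c h =>
    ⟨⟨n - c, by omega⟩, by simp only []; omega⟩
  have F0 : ∀ r, z r o = 0 := by
    intro r
    by_cases hr : (r : ℕ) = 0
    · have : r = o := Fin.ext (by omega)
      subst this; exact h0 _ ho
    · exact hP 1 (Or.inl ⟨by omega, rfl⟩) r o (by omega) (by omega)
  have F1 : ∀ c : Fin n, a < c → z o c = 0 := by
    intro c hc1
    have h := hc' w c
    rw [zE1_out z w c (by omega), zE2_out z w c (by omega), E1z z o w c ho,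
      E2z_out z w c (by omega), if_pos (show Chi n (w : ℕ) from Or.inl ⟨by omega, by omega⟩)] at h
    simpa using h.symm
  have F2 : ∀ m c : Fin n, 1 ≤ (m : ℕ) → (m : ℕ) ≤ a → a < c → z m c = 0 := by
    intro m c h1 h2 h3
    obtain ⟨r, hr⟩ := hrefl m h1
    have h := hc' r c
    rw [zE1_out z r c (by omega), zE2_out z r c (by omega), E1z z o r c ho,
      E2z z r m c (by omega) h1 (by omega), F1 c h3] at h
    simpa using h.symm
  have F3 : ∀ c : Fin n, z o c = 0 := by
    intro c
    by_cases hc0 : (c : ℕ) = 0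
    · have : c = o := Fin.ext (by omega)
      subst this; exact F0 _
    by_cases hca : a < c
    · exact F1 c hca
    obtain ⟨c', hc1⟩ := hrefl c (by omega)
    have h := hc' w c
    rw [zE1_out z w c (by omega), zE2 z w c c' (by omega) (by omega) hc1, E1z z o w c ho,
      E2z_out z w c (by omega), if_pos (show Chi n (w : ℕ) from Or.inl ⟨by omega, by omega⟩),
      F2 w c' (by omega) (by omega) (by omega)] at h
    simpa using h.symm
  have F4 : ∀ c c' r r' : Fin n, 1 ≤ (c : ℕ) → (c : ℕ) ≤ a → (c' : ℕ) + c = n →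
      (r : ℕ) + r' = n → 1 ≤ (r' : ℕ) → (r' : ℕ) ≤ a → z r c' = z r' c := by
    intro c c' r r' h1 h2 h3 h4 h5 h6
    have h := hc' r c
    rw [zE1_out z r c (by omega), zE2 z r c c' (by omega) (by omega) h3, E1z z o r c ho,
      E2z z r r' c h4 h5 (by omega), F3 c] at h
    simpa using h
  have F5 : ∀ c c' r : Fin n, 1 ≤ (c : ℕ) → (c : ℕ) ≤ a → (c' : ℕ) + c = n →
      a < n - r → z r c' = 0 := by
    intro c c' r h1 h2 h3 h4
    have h := hc' r c
    rw [zE1_out z r c (by omega), zE2 z r c c' (by omega) (by omega) h3, E1z z o r c ho,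
      E2z_out z r c (by omega), F3 c] at h
    simpa using h
  have F6 : ∀ r : Fin n, (∑ m : Fin n, if Chi n m then z r m else 0) = 0 := by
    intro r
    have h := hc' r o
    rw [zE1 z r o ho, zE2_out z r o (by omega), E1z z o r o ho, F3 o] at h
    by_cases hr : aa n < n - r
    · rw [E2z_out z r o hr] at h
      simpa using h
    · obtain ⟨r', hr'⟩ := hrefl r (by omega)
      rw [E2z z r r' o (by omega) (by omega) (by omega), F0 r'] at h
      simpa using h
  -- the block `U → U`
  have G1 : ∀ i c : Fin n, 1 ≤ (i : ℕ) → (i : ℕ) ≤ a → 1 ≤ (c : ℕ) → (c : ℕ) ≤ a →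
      ((i : ℕ) - 1) / 2 ≠ ((c : ℕ) - 1) / 2 → z i c = 0 := by
    intro i c h1 h2 h3 h4 h5
    rcases lt_or_gt_of_ne h5 with h | h
    · obtain ⟨i', hi'⟩ := hrefl i h1
      obtain ⟨c', hc1⟩ := hrefl c h3
      rw [← F4 c c' i' i h3 h4 hc1 (by omega) h1 h2]
      exact hP (n - 2 * (((c : ℕ) - 1) / 2)) (Or.inr ⟨by omega, by omega⟩) i' c'
        (by omega) (by omega)
    · exact hP (2 * (((i : ℕ) - 1) / 2) + 1) (Or.inl ⟨by omega, by omega⟩) i c (by omega) (by omega)
  have H1 : ∀ r m : Fin n, a < r → 1 ≤ (m : ℕ) → (m : ℕ) ≤ a →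
      ¬ ((m : ℕ) = a ∧ (r : ℕ) = a + 1 ∧ a % 2 = 1 ∧ (n - 1 - a) % 2 = 1) → z r m = 0 := by
    intro r m h1 h2 h3 h4
    by_cases h5 : Lam n (a + 1)
    · exact hP _ h5 r m (by omega) (by omega)
    · have h6 : a % 2 = 1 ∧ (n - 1 - a) % 2 = 1 := by
        unfold Lam at h5
        rw [hA] at h5
        push Not at h5
        have h7 := h5.1 (by omega)
        have h8 := h5.2 (by omega)
        omega
      by_cases h7 : (m : ℕ) < a
      · exact hP a (Or.inl ⟨by omega, by omega⟩) r m (by omega) (by omega)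
      · exact hP (a + 2) (Or.inr ⟨by omega, by omega⟩) r m (by omega) (by omega)
  have G2 : ∀ i c : Fin n, 1 ≤ (i : ℕ) → (i : ℕ) ≤ a → 1 ≤ (c : ℕ) → (c : ℕ) ≤ a →
      (c : ℕ) % 2 = 1 → z i c = 0 := by
    intro i c h1 h2 h3 h4 h5
    by_cases hb : ((i : ℕ) - 1) / 2 = ((c : ℕ) - 1) / 2
    · have h := F6 i
      rw [Finset.sum_eq_single c] at h
      · rwa [if_pos (show Chi n (c : ℕ) from Or.inl ⟨by omega, h5⟩)] at h
      · intro m _ hm
        by_cases hchi : Chi n m
        · rw [if_pos hchi]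
          by_cases hma : a < m
          · exact F2 i m h1 h2 hma
          · rcases hchi with hchi | hchi
            · have hm0 : (m : ℕ) ≠ c := fun h => hm (Fin.ext h)
              exact G1 i m h1 h2 (by omega) (by omega) (by omega)
            · omega
        · rw [if_neg hchi]
      · intro h; exact absurd (Finset.mem_univ _) h
    · exact G1 i c h1 h2 h3 h4 hb
  have G3 : ∀ i c : Fin n, 1 ≤ (i : ℕ) → (i : ℕ) ≤ a → 1 ≤ (c : ℕ) → (c : ℕ) ≤ a →
      z i c = 0 := by
    intro i c h1 h2 h3 h4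
    by_cases hodd : (c : ℕ) % 2 = 1
    · exact G2 i c h1 h2 h3 h4 hodd
    by_cases hb : ((i : ℕ) - 1) / 2 = ((c : ℕ) - 1) / 2
    · obtain ⟨i', hi'⟩ := hrefl i h1
      obtain ⟨c', hc1⟩ := hrefl c h3
      rw [← F4 c c' i' i h3 h4 hc1 (by omega) h1 h2]
      have h := F6 i'
      rw [Finset.sum_eq_single c'] at h
      · rwa [if_pos (show Chi n (c' : ℕ) from Or.inr ⟨by omega, Or.inl (by omega)⟩)] at h
      · intro m _ hm
        have hm0 : (m : ℕ) ≠ c' := fun h => hm (Fin.ext h)
        by_cases hchi : Chi n m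
        · rw [if_pos hchi]
          by_cases hma : a < m
          · -- `m = n - j`
            obtain ⟨j, hj⟩ := hrefl m (by omega)
            by_cases hja : (j : ℕ) ≤ a
            · rw [F4 j m i' i (by omega) hja (by omega) (by omega) h1 h2]
              rcases hchi with hchi | hchi
              · omega
              · by_cases hjk : (j : ℕ) % 2 = 0
                · exact G1 i j h1 h2 (by omega) (by omega) (by omega)
                · exact G2 i j h1 h2 (by omega) (by omega) (by omega)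
            · -- `j = a + 1`
              have hj2 : (j : ℕ) = a + 1 := by omega
              exact hP (n - 2 * (a / 2)) (Or.inr ⟨by omega, by omega⟩) i' m (by omega) (by omega)
          · by_cases hm1 : 1 ≤ (m : ℕ)
            · exact H1 i' m (by omega) hm1 (by omega) (by omega)
            · have : m = o := Fin.ext (by omega)
              rw [this]; exact F0 _
        · rw [if_neg hchi]
      · intro h; exact absurd (Finset.mem_univ _) h
    · exact G1 i c h1 h2 h3 h4 hb
  -- the columns `> a + 1`, and `a + 1` if `k = a`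
  have G4 : ∀ r c : Fin n, a < r → a < c → ¬ ((c : ℕ) = a + 1 ∧ n - 1 - a = a + 1) →
      z r c = 0 := by
    intro r c h1 h2 h3
    obtain ⟨j, hj⟩ := hrefl c (by omega)
    have hja : (j : ℕ) ≤ a := by omega
    by_cases hr : a < n - r
    · exact F5 j c r (by omega) hja (by omega) hr
    · obtain ⟨r', hr'⟩ := hrefl r (by omega)
      rw [F4 j c r r' (by omega) hja (by omega) (by omega) (by omega) (by omega)]
      exact G3 r' j (by omega) (by omega) (by omega) (by omega)
  have G5 : ∀ r c : Fin n, a < r → a < c → z r c = 0 := by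
    intro r c h1 h2
    by_cases hex : (c : ℕ) = a + 1 ∧ n - 1 - a = a + 1
    · have h := F6 r
      rw [Finset.sum_eq_single c] at h
      · rwa [if_pos (show Chi n (c : ℕ) from Or.inr ⟨by omega, Or.inr (by omega)⟩)] at h
      · intro m _ hm
        have hm0 : (m : ℕ) ≠ c := fun h => hm (Fin.ext h)
        by_cases hchi : Chi n m
        · rw [if_pos hchi]
          by_cases hma : a < m
          · exact G4 r m h1 hma (by omega)
          · by_cases hm1 : 1 ≤ (m : ℕ)
            · exact H1 r m (by omega) hm1 (by omega) (by omega)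
            · have : m = o := Fin.ext (by omega)
              rw [this]; exact F0 _
        · rw [if_neg hchi]
      · intro h; exact absurd (Finset.mem_univ _) h
    · exact G4 r c h1 h2 hex
  have G6 : ∀ r m : Fin n, a < r → 1 ≤ (m : ℕ) → (m : ℕ) ≤ a → z r m = 0 := by
    intro r m h1 h2 h3
    by_cases hex : (m : ℕ) = a ∧ (r : ℕ) = a + 1 ∧ a % 2 = 1 ∧ (n - 1 - a) % 2 = 1
    · have h := F6 r
      rw [Finset.sum_eq_single m] at h
      · rwa [if_pos (show Chi n (m : ℕ) from Or.inl ⟨by omega, by omega⟩)] at h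
      · intro c _ hc1
        have hm0 : (c : ℕ) ≠ m := fun h => hc1 (Fin.ext h)
        by_cases hchi : Chi n c
        · rw [if_pos hchi]
          by_cases hma : a < c
          · exact G5 r c h1 hma
          · by_cases hm1 : 1 ≤ (c : ℕ)
            · exact H1 r c (by omega) hm1 (by omega) (by omega)
            · have : c = o := Fin.ext (by omega)
              rw [this]; exact F0 _
        · rw [if_neg hchi]
      · intro h; exact absurd (Finset.mem_univ _) h
    · exact H1 r m h1 h2 h3 hex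
  refine Matrix.ext fun r c => ?_
  change z r c = 0
  by_cases hr0 : (r : ℕ) = 0
  · have : r = o := Fin.ext (by omega)
    rw [this]; exact F3 c
  by_cases hc0 : (c : ℕ) = 0
  · have : c = o := Fin.ext (by omega)
    rw [this]; exact F0 r
  by_cases hra : a < r
  · by_cases hca : a < c
    · exact G5 r c hra hca
    · exact G6 r c hra (by omega) (by omega)
  · by_cases hca : a < c
    · exact F2 r c (by omega) (by omega) hca
    · exact G3 r c (by omega) (by omega) (by omega) (by omega)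

end Pool.Agent.Q21.FPc
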