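import Pool.Agent.Q21.FPc.Core

/-!
# Dimension counts: the centraliser of `E` and the parabolic subalgebra
-/

set_option autoImplicit false

open Matrix Finset

namespace Pool.Agent.Q21.FPc

variable {K : Type*} [Field K] {n : ℕ}

/-- the matrices with support in `S` -/
def supp (K : Type*) [Field K] {n : ℕ} (S : Fin n → Fin n → Prop) :
    Submodule K (Matrix (Fin n) (Fin n) K) where
  carrier := {x | ∀ r c, ¬ S r c → x r c = 0}
  add_mem' := by
    intro x y hx hy r c h
    simp [hx r c h, hy r c h]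
  zero_mem' := by intro r c _; rfl
  smul_mem' := by
    intro t x hx r c h
    simp [hx r c h]

theorem mem_supp {S : Fin n → Fin n → Prop} {x : Matrix (Fin n) (Fin n) K} :
    x ∈ supp K S ↔ ∀ r c, ¬ S r c → x r c = 0 := Iff.rfl

open Classical in
/-- coordinates -/
noncomputable def suppEquiv (S : Fin n → Fin n → Prop) :
    supp K S ≃ₗ[K] ({p : Fin n × Fin n // S p.1 p.2} → K) where
  toFun x p := (x : Matrix (Fin n) (Fin n) K) p.1.1 p.1.2
  map_add' _ _ := rfl
  map_smul' _ _ := rfl
  invFun f := ⟨fun r c => if h : S r c then f ⟨(r, c), h⟩ else 0, fun r c h => by simp [h]⟩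
  left_inv x := by
    refine Subtype.ext (Matrix.ext fun r c => ?_)
    change (if h : S r c then (x : Matrix (Fin n) (Fin n) K) r c else 0) = _
    by_cases h : S r c
    · rw [dif_pos h]
    · rw [dif_neg h, x.2 r c h]
  right_inv f := by
    funext p
    change (if h : S p.1.1 p.1.2 then f ⟨(p.1.1, p.1.2), h⟩ else 0) = f p
    rw [dif_pos p.2]

theorem finrank_supp (S : Fin n → Fin n → Prop) :
    Module.finrank K (supp K S) = Nat.card {p : Fin n × Fin n // S p.1 p.2} := by
  classical
  rw [(suppEquiv (K := K) S).finrank_eq, Module.finrank_fintype_fun_eq_card,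
    Nat.card_eq_fintype_card]

/-- the class of a position -/
def cl (n r : ℕ) : ℕ := if r = 0 then 0 else if r ≤ aa n then 1 else 2

theorem cl_one {n r : ℕ} (h1 : r ≠ 0) (h2 : r ≤ aa n) : cl n r = 1 := by
  unfold cl; rw [if_neg h1, if_pos h2]

theorem cl_two {n r : ℕ} (h1 : r ≠ 0) (h2 : ¬ r ≤ aa n) : cl n r = 2 := by
  unfold cl; rw [if_neg h1, if_neg h2]

theorem E_supp (r c : Fin n) (h : ¬ cl n c < cl n r) : E K n r c = 0 := by
  have ha : aa n = (n - 1) / 2 := rfl
  have h1 : ¬ ((c : ℕ) = 0 ∧ Chi n r) := by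
    rintro ⟨h1, h2⟩
    refine h ?_
    have hr : (r : ℕ) ≠ 0 := by
      rcases h2 with h2 | h2
      · omega
      · omega
    unfold cl
    rw [if_pos h1, if_neg hr]
    split_ifs <;> omega
  have h2 : ¬ (1 ≤ (c : ℕ) ∧ (c : ℕ) ≤ aa n ∧ (r : ℕ) + c = n) := by
    rintro ⟨h2, h3, h4⟩
    refine h ?_
    unfold cl
    rw [if_neg (by omega), if_pos h3, if_neg (by omega), if_neg (by omega)]
    omega
  change (if (c : ℕ) = 0 ∧ Chi n r then (1 : K) else 0) +
    (if 1 ≤ (c : ℕ) ∧ (c : ℕ) ≤ aa n ∧ (r : ℕ) + c = n then 1 else 0) = 0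
  rw [if_neg h1, if_neg h2, add_zero]

/-- the centraliser of `E` -/
def cent (K : Type*) [Field K] (n : ℕ) : Submodule K (Matrix (Fin n) (Fin n) K) where
  carrier := {x | x * E K n = E K n * x}
  add_mem' := by
    intro x y (hx : _ = _) (hy : _ = _)
    change (x + y) * _ = _ * (x + y)
    rw [add_mul, mul_add, hx, hy]
  zero_mem' := by change (0 : Matrix (Fin n) (Fin n) K) * _ = _ * 0; simp
  smul_mem' := by
    intro t x (hx : _ = _)
    change (t • x) * _ = _ * (t • x)
    rw [smul_mul_assoc, mul_smul_comm, hx]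

/-- the map `x ↦ E x - x E` on the lower block triangular matrices -/
noncomputable def adE (K : Type*) [Field K] (n : ℕ) :
    supp K (fun r c : Fin n => cl n c ≤ cl n r) →ₗ[K] supp K (fun r c : Fin n => cl n c < cl n r) where
  toFun x := ⟨E K n * x.1 - x.1 * E K n, by
    intro r c h
    have h1 : (E K n * x.1) r c = 0 := by
      rw [Matrix.mul_apply]
      refine Finset.sum_eq_zero fun m _ => ?_
      by_cases hm : cl n m < cl n r
      · rw [x.2 m c (by omega), mul_zero]
      · rw [E_supp r m hm, zero_mul]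
    have h2 : (x.1 * E K n) r c = 0 := by
      rw [Matrix.mul_apply]
      refine Finset.sum_eq_zero fun m _ => ?_
      by_cases hm : cl n c < cl n m
      · rw [x.2 r m (by omega), zero_mul]
      · rw [E_supp m c hm, mul_zero]
    rw [Matrix.sub_apply, h1, h2, sub_zero]⟩
  map_add' x y := by
    refine Subtype.ext ?_
    change E K n * (x.1 + y.1) - (x.1 + y.1) * E K n =
      (E K n * x.1 - x.1 * E K n) + (E K n * y.1 - y.1 * E K n)
    rw [mul_add, add_mul]; abel
  map_smul' t x := by
    refine Subtype.ext ?_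
    change E K n * (t • x.1) - (t • x.1) * E K n = t • (E K n * x.1 - x.1 * E K n)
    rw [smul_mul_assoc, mul_smul_comm, smul_sub]

theorem card_split (n : ℕ) :
    Nat.card {p : Fin n × Fin n // cl n p.2 ≤ cl n p.1} =
      Nat.card {p : Fin n × Fin n // cl n p.2 < cl n p.1} +
      Nat.card {p : Fin n × Fin n // cl n p.2 = cl n p.1} := by
  classical
  rw [← Nat.card_sum]
  refine Nat.card_congr ?_
  refine
    { toFun := fun p => if h : cl n p.1.2 = cl n p.1.1 then Sum.inr ⟨p.1, h⟩
        else Sum.inl ⟨p.1, lt_of_le_of_ne p.2 h⟩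
      invFun := fun q => q.elim (fun p => ⟨p.1, p.2.le⟩) (fun p => ⟨p.1, p.2.le⟩)
      left_inv := ?_
      right_inv := ?_ }
  · intro p
    by_cases h : cl n p.1.2 = cl n p.1.1
    · simp only [dif_pos h, Sum.elim_inr]
    · simp only [dif_neg h, Sum.elim_inl]
  · rintro (p | p)
    · have : ¬ cl n p.1.2 = cl n p.1.1 := p.2.ne
      simp only [Sum.elim_inl]
      exact dif_neg this
    · have : cl n p.1.2 = cl n p.1.1 := p.2
      simp only [Sum.elim_inr]
      exact dif_pos this

theorem card_eq_ge (hn : 3 ≤ n) :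
    1 + aa n * aa n + (n - 1 - aa n) * (n - 1 - aa n) ≤
      Nat.card {p : Fin n × Fin n // cl n p.2 = cl n p.1} := by
  have ha : aa n = (n - 1) / 2 := rfl
  have key : Nat.card (Unit ⊕ (Fin (aa n) × Fin (aa n)) ⊕
      (Fin (n - 1 - aa n) × Fin (n - 1 - aa n))) =
      1 + aa n * aa n + (n - 1 - aa n) * (n - 1 - aa n) := by
    rw [Nat.card_sum, Nat.card_sum, Nat.card_prod, Nat.card_prod]
    simp [add_assoc]
  rw [← key]
  let f : Unit ⊕ (Fin (aa n) × Fin (aa n)) ⊕ (Fin (n - 1 - aa n) × Fin (n - 1 - aa n)) →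
      {p : Fin n × Fin n // cl n p.2 = cl n p.1} := fun q => match q with
    | Sum.inl _ => ⟨(⟨0, by omega⟩, ⟨0, by omega⟩), rfl⟩
    | Sum.inr (Sum.inl (i, j)) => ⟨(⟨1 + i, by omega⟩, ⟨1 + j, by omega⟩), by
        have hi := i.2
        have hj := j.2
        change cl n (1 + j) = cl n (1 + i)
        rw [cl_one (by omega) (by omega), cl_one (by omega) (by omega)]⟩
    | Sum.inr (Sum.inr (i, j)) => ⟨(⟨aa n + 1 + i, by omega⟩, ⟨aa n + 1 + j, by omega⟩), by
        have hi := i.2
        have hj := j.2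
        change cl n (aa n + 1 + j) = cl n (aa n + 1 + i)
        rw [cl_two (by omega) (by omega), cl_two (by omega) (by omega)]⟩
  refine Nat.card_le_card_of_injective f ?_
  rintro (_ | ⟨i, j⟩ | ⟨i, j⟩) (_ | ⟨i', j'⟩ | ⟨i', j'⟩) h
  · rfl
  all_goals
    have h1 := congrArg (fun p => (p.1.1 : ℕ)) h
    have h2 := congrArg (fun p => (p.1.2 : ℕ)) h
    simp only [f] at h1 h2
  · omega
  · omega
  · omega
  · have e1 : i = i' := Fin.ext (by omega)
    have e2 : j = j' := Fin.ext (by omega)
    rw [e1, e2]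
  · have := i.2
    omega
  · omega
  · have := i'.2
    omega
  · have e1 : i = i' := Fin.ext (by omega)
    have e2 : j = j' := Fin.ext (by omega)
    rw [e1, e2]

/-- the centraliser of `E` has dimension at least `1 + a² + k²` -/
theorem finrank_cent_ge (hn : 3 ≤ n) :
    1 + aa n * aa n + (n - 1 - aa n) * (n - 1 - aa n) ≤ Module.finrank K (cent K n) := by
  have h1 := LinearMap.finrank_range_add_finrank_ker (adE K n)
  have h2 : Module.finrank K (LinearMap.range (adE K n)) ≤
      Module.finrank K (supp K (fun r c : Fin n => cl n c < cl n r)) := Submodule.finrank_le _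
  rw [finrank_supp] at h1 h2
  rw [card_split] at h1
  have h3 := card_eq_ge hn
  have h4 : Module.finrank K (LinearMap.ker (adE K n)) ≤ Module.finrank K (cent K n) := by
    let g : LinearMap.ker (adE K n) →ₗ[K] cent K n :=
      { toFun := fun x => ⟨x.1.1, by
          have := congrArg Subtype.val (show adE K n x.1 = 0 from x.2)
          change E K n * x.1.1 - x.1.1 * E K n = 0 at this
          exact (sub_eq_zero.1 this).symm⟩
        map_add' := fun _ _ => rfl
        map_smul' := fun _ _ => rfl }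
    refine LinearMap.finrank_le_finrank_of_injective (f := g) ?_
    intro x y h
    have h' := congrArg (fun q : cent K n => (q : Matrix (Fin n) (Fin n) K)) h
    exact Subtype.ext (Subtype.ext h')
  omega

/-- support of the parabolic -/
def SP (n : ℕ) (r c : Fin n) : Prop := ∀ l, Lam n l → ¬ (l ≤ (r : ℕ) ∧ (c : ℕ) < l)

theorem inP_iff (x : Matrix (Fin n) (Fin n) K) : InP x ↔ x ∈ supp K (SP n) := by
  constructor
  · intro h r c hS
    unfold SP at hS
    push Not at hS
    obtain ⟨l, h1, h2, h3⟩ := hS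
    exact h l h1 r c h2 h3
  · intro h l hl r c h1 h2
    exact h r c fun hS => hS l hl ⟨h1, h2⟩

theorem card_le_pairs (n : ℕ) :
    2 * Nat.card {p : Fin n × Fin n // p.1 ≤ p.2} = n * (n + 1) := by
  classical
  have h1 : Nat.card {p : Fin n × Fin n // p.1 ≤ p.2} = ∑ r : Fin n, (n - r) := by
    rw [Nat.card_congr (show {p : Fin n × Fin n // p.1 ≤ p.2} ≃ Σ r : Fin n, {c : Fin n // r ≤ c} from
      { toFun := fun p => ⟨p.1.1, ⟨p.1.2, p.2⟩⟩
        invFun := fun q => ⟨(q.1, q.2.1), q.2.2⟩
        left_inv := fun _ => rfl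
        right_inv := fun _ => rfl })]
    rw [Nat.card_sigma]
    refine Finset.sum_congr rfl fun r _ => ?_
    rw [Nat.card_eq_fintype_card, Fintype.card_subtype]
    have : (Finset.univ.filter fun c : Fin n => r ≤ c) = Finset.Ici r := by
      ext c; simp
    rw [this, Fin.card_Ici]
  rw [h1, Fin.sum_univ_eq_sum_range (fun r => n - r) n]
  have h2 : ∀ m : ℕ, 2 * ∑ r ∈ Finset.range m, (m - r) = m * (m + 1) := by
    intro m
    rw [← Finset.sum_range_reflect]
    have h3 : ∀ j ∈ Finset.range m, m - (m - 1 - j) = j + 1 := by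
      intro j hj
      rw [Finset.mem_range] at hj
      omega
    rw [Finset.sum_congr rfl h3]
    have h4 := Finset.sum_range_id_mul_two (m + 1)
    rw [Finset.sum_range_succ'] at h4
    simp only [add_zero, Nat.add_sub_cancel] at h4
    rw [mul_comm, h4, mul_comm]
  exact h2 n

theorem card_SP (hn : 3 ≤ n) :
    Nat.card {p : Fin n × Fin n // p.1 ≤ p.2} + aa n ≤
      Nat.card {p : Fin n × Fin n // SP n p.1 p.2} := by
  classical
  have ha : aa n = (n - 1) / 2 := rfl
  have key : Nat.card ({p : Fin n × Fin n // p.1 ≤ p.2} ⊕ Fin (aa n)) =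
      Nat.card {p : Fin n × Fin n // p.1 ≤ p.2} + aa n := by
    rw [Nat.card_sum]; simp
  rw [← key]
  obtain ⟨g, hg⟩ : ∃ g : ℕ → ℕ, ∀ i, g i =
      if i < aa n / 2 then 2 * i + 2 else n - (2 * (i - aa n / 2) + 1) := ⟨_, fun i => rfl⟩
  have hg1 : ∀ i, i < aa n → 1 ≤ g i ∧ g i < n := by
    intro i hi
    rw [hg]
    split_ifs <;> omega
  have hg2 : ∀ i, i < aa n → ¬ Lam n (g i) := by
    intro i hi hL
    unfold Lam at hL
    rw [hg] at hL
    split_ifs at hL with h
    · rcases hL with hL | hL <;> omega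
    · rcases hL with hL | hL <;> omega
  have hg3 : ∀ i j, i < aa n → j < aa n → g i = g j → i = j := by
    intro i j hi hj h
    rw [hg, hg] at h
    split_ifs at h <;> omega
  let f : {p : Fin n × Fin n // p.1 ≤ p.2} ⊕ Fin (aa n) → {p : Fin n × Fin n // SP n p.1 p.2} :=
    fun q => match q with
    | Sum.inl p => ⟨p.1, fun l _ h => by
        have := Fin.le_def.1 p.2
        omega⟩
    | Sum.inr i => ⟨(⟨g i, (hg1 i i.2).2⟩, ⟨g i - 1, by have := (hg1 i i.2).2; omega⟩),
        fun l hl h => by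
          have h1 := (hg1 i i.2).1
          simp only at h
          have : l = g i := by omega
          exact hg2 i i.2 (this ▸ hl)⟩
  refine Nat.card_le_card_of_injective f ?_
  rintro (p | i) (q | j) h
  · have := congrArg (fun p => p.1) h
    simp only [f] at this
    rw [Subtype.ext this]
  · exfalso
    have h1 := congrArg (fun p => (p.1.1 : ℕ)) h
    have h2 := congrArg (fun p => (p.1.2 : ℕ)) h
    simp only [f] at h1 h2
    have h3 := Fin.le_def.1 p.2
    have h4 := (hg1 j j.2).1
    omega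
  · exfalso
    have h1 := congrArg (fun p => (p.1.1 : ℕ)) h
    have h2 := congrArg (fun p => (p.1.2 : ℕ)) h
    simp only [f] at h1 h2
    have h3 := Fin.le_def.1 q.2
    have h4 := (hg1 i i.2).1
    omega
  · have h1 := congrArg (fun p => (p.1.1 : ℕ)) h
    simp only [f] at h1
    rw [Fin.ext (hg3 i j i.2 j.2 h1)]

/-- the numerical identity -/
theorem numeric (hn : 3 ≤ n) (N : ℕ) (hN : 2 * N = n * (n + 1)) :
    n * n + 1 = (N + aa n) + (1 + aa n * aa n + (n - 1 - aa n) * (n - 1 - aa n)) := by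
  have ha : aa n = (n - 1) / 2 := rfl
  obtain ⟨m, hm | hm⟩ : ∃ m, n = 2 * m + 1 ∨ n = 2 * m + 2 := ⟨(n - 1) / 2, by omega⟩
  · have h1 : aa n = m := by omega
    have h2 : n - 1 - m = m := by omega
    rw [h1, h2]
    subst hm
    nlinarith
  · have h1 : aa n = m := by omega
    have h2 : n - 1 - m = m + 1 := by omega
    rw [h1, h2]
    subst hm
    nlinarith

end Pool.Agent.Q21.FPc
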