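import Pool.Agent.Q21.FPc.Dim

/-!
# The index of the algebra of upper triangular matrices is at least `⌈n/2⌉`
-/

set_option autoImplicit false

open Matrix Finset

namespace Pool.Agent.Q21.FPc

section Semi

variable {K V W : Type*} [Field K] [Infinite K] [AddCommGroup V] [Module K V]
  [FiniteDimensional K V] [AddCommGroup W] [Module K W] [FiniteDimensional K W]

theorem exists_unit (N : Module.End K V) :
    ∃ t : K, t ≠ 0 ∧ ∀ v, v + t • N v = 0 → v = 0 := by
  classical
  have hfin : Set.Finite {μ : K | N.HasEigenvalue μ} := Module.End.finite_hasEigenvalue N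
  obtain ⟨μ, hμ⟩ := (hfin.union (Set.finite_singleton (0 : K))).infinite_compl.nonempty
  simp only [Set.mem_compl_iff, Set.mem_union, Set.mem_ofPred_eq, Set.mem_singleton_iff,
    not_or] at hμ
  refine ⟨-μ⁻¹, by simpa using hμ.2, fun v hv => ?_⟩
  by_contra hv0
  refine hμ.1 (Module.End.hasEigenvalue_of_hasEigenvector (x := v) ⟨?_, hv0⟩)
  rw [Module.End.mem_eigenspace_iff]
  have h1 : v = μ⁻¹ • N v := by
    rw [neg_smul] at hv
    exact eq_of_sub_eq_zero (by rw [sub_eq_add_neg]; exact hv)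
  calc N v = μ • (μ⁻¹ • N v) := by rw [smul_smul, mul_inv_cancel₀ hμ.2, one_smul]
    _ = μ • v := by rw [← h1]

/-- lower semicontinuity of the rank on a line -/
theorem semicont (M₀ M₁ : V →ₗ[K] W) (ρ : ℕ)
    (h : ∀ t : K, t ≠ 0 → ρ ≤ Module.finrank K (LinearMap.ker (M₀ + t • M₁))) :
    ρ ≤ Module.finrank K (LinearMap.ker M₀) := by
  obtain ⟨C, hC⟩ := Submodule.exists_isCompl (LinearMap.ker M₀)
  have hinj : LinearMap.ker (M₀ ∘ₗ C.subtype) = ⊥ := by
    rw [LinearMap.ker_eq_bot']
    intro v hv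
    have h1 : (v : V) ∈ LinearMap.ker M₀ ⊓ C := ⟨hv, v.2⟩
    rw [hC.inf_eq_bot] at h1
    exact Subtype.ext h1
  obtain ⟨g, hg⟩ := LinearMap.exists_leftInverse_of_injective _ hinj
  obtain ⟨t, ht, hN⟩ := exists_unit (g ∘ₗ M₁ ∘ₗ C.subtype)
  have h2 : LinearMap.ker (M₀ + t • M₁) ⊓ C = ⊥ := by
    rw [eq_bot_iff]
    rintro v ⟨hv, hvC⟩
    have h3 : M₀ v + t • M₁ v = 0 := hv
    have h4 : (⟨v, hvC⟩ : C) + t • (g ∘ₗ M₁ ∘ₗ C.subtype) ⟨v, hvC⟩ = 0 := by
      have h5 := congrArg g h3
      rw [map_add, map_smul, map_zero] at h5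
      have h6 := LinearMap.congr_fun hg ⟨v, hvC⟩
      simp only [LinearMap.comp_apply, Submodule.subtype_apply, LinearMap.id_apply] at h6
      rw [h6] at h5
      exact h5
    have h7 := hN _ h4
    exact (Submodule.mem_bot K).2 (congrArg Subtype.val h7)
  have h3 := h t ht
  have h4 := Submodule.finrank_sup_add_finrank_inf_eq (LinearMap.ker (M₀ + t • M₁)) C
  rw [h2, finrank_bot] at h4
  have h5 := Submodule.finrank_le (LinearMap.ker (M₀ + t • M₁) ⊔ C)
  have h6 := Submodule.finrank_add_eq_of_isCompl hC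
  omega

end Semi

variable {K : Type*} [Field K] {n : ℕ}

/-- upper triangular matrices -/
abbrev T (K : Type*) [Field K] (n : ℕ) : Submodule K (Matrix (Fin n) (Fin n) K) :=
  supp K (fun r c : Fin n => r ≤ c)

/-- the lower part of `Y x - x Y` -/
noncomputable def Phi (Y : Matrix (Fin n) (Fin n) K) : T K n →ₗ[K] Matrix (Fin n) (Fin n) K where
  toFun x := fun r c => if c ≤ r then (Y * x.1 - x.1 * Y) r c else 0
  map_add' x y := by
    refine Matrix.ext fun r c => ?_
    change (if c ≤ r then (Y * (x.1 + y.1) - (x.1 + y.1) * Y) r c else 0) =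
      (if c ≤ r then (Y * x.1 - x.1 * Y) r c else 0) +
      (if c ≤ r then (Y * y.1 - y.1 * Y) r c else 0)
    by_cases h : c ≤ r
    · have e : Y * (x.1 + y.1) - (x.1 + y.1) * Y = (Y * x.1 - x.1 * Y) + (Y * y.1 - y.1 * Y) := by
        noncomm_ring
      rw [if_pos h, if_pos h, if_pos h, e]
      rfl
    · rw [if_neg h, if_neg h, if_neg h, add_zero]
  map_smul' t x := by
    refine Matrix.ext fun r c => ?_
    change (if c ≤ r then (Y * (t • x.1) - (t • x.1) * Y) r c else 0) =
      t * (if c ≤ r then (Y * x.1 - x.1 * Y) r c else 0)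
    by_cases h : c ≤ r
    · have e : Y * (t • x.1) - (t • x.1) * Y = t • (Y * x.1 - x.1 * Y) := by
        rw [mul_smul_comm, smul_mul_assoc, smul_sub]
      rw [if_pos h, if_pos h, e]
      rfl
    · rw [if_neg h, if_neg h, mul_zero]

instance free_ker (M : Matrix (Fin n) (Fin n) K) : Module.Free K (LinearMap.ker (Phi M)) :=
  @Module.Free.of_divisionRing K (LinearMap.ker (Phi M)) _ (Submodule.addCommGroup _)
    (Submodule.module _)

theorem mem_ker_Phi (Y : Matrix (Fin n) (Fin n) K) (x : T K n) :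
    x ∈ LinearMap.ker (Phi Y) ↔ ∀ r c, c ≤ r → (Y * x.1 - x.1 * Y) r c = 0 := by
  rw [LinearMap.mem_ker]
  constructor
  · intro h r c hrc
    have h1 := congrFun (congrFun h r) c
    change (if c ≤ r then (Y * x.1 - x.1 * Y) r c else 0) = 0 at h1
    rwa [if_pos hrc] at h1
  · intro h
    refine Matrix.ext fun r c => ?_
    change (if c ≤ r then (Y * x.1 - x.1 * Y) r c else 0) = 0
    by_cases hrc : c ≤ r
    · rw [if_pos hrc, h r c hrc]
    · rw [if_neg hrc]

theorem Phi_add_smul (Y Z : Matrix (Fin n) (Fin n) K) (t : K) :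
    Phi (Y + t • Z) = Phi Y + t • Phi Z := by
  refine LinearMap.ext fun x => Matrix.ext fun r c => ?_
  change (if c ≤ r then ((Y + t • Z) * x.1 - x.1 * (Y + t • Z)) r c else 0) =
    (if c ≤ r then (Y * x.1 - x.1 * Y) r c else 0) +
    t * (if c ≤ r then (Z * x.1 - x.1 * Z) r c else 0)
  by_cases h : c ≤ r
  · have e : (Y + t • Z) * x.1 - x.1 * (Y + t • Z) =
        (Y * x.1 - x.1 * Y) + t • (Z * x.1 - x.1 * Z) := by
      rw [add_mul, mul_add, smul_mul_assoc, mul_smul_comm, smul_sub]
      abel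
    rw [if_pos h, if_pos h, if_pos h, e]
    rfl
  · rw [if_neg h, if_neg h, if_neg h, mul_zero, add_zero]

theorem upper_mul {x y : Matrix (Fin n) (Fin n) K} (hx : x ∈ T K n) (hy : y ∈ T K n) :
    x * y ∈ T K n := by
  intro r c h
  rw [Matrix.mul_apply]
  refine Finset.sum_eq_zero fun m _ => ?_
  by_cases h1 : r ≤ m
  · rw [hy m c (fun h2 => h (h1.trans h2)), mul_zero]
  · rw [hx r m h1, zero_mul]

theorem strict_mul_left {x y : Matrix (Fin n) (Fin n) K} (hx : x ∈ T K n)
    (hy : ∀ r c, c ≤ r → y r c = 0) : ∀ r c, c ≤ r → (x * y) r c = 0 := by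
  intro r c h
  rw [Matrix.mul_apply]
  refine Finset.sum_eq_zero fun m _ => ?_
  by_cases h1 : r ≤ m
  · rw [hy m c (h.trans h1), mul_zero]
  · rw [hx r m h1, zero_mul]

theorem strict_mul_right {x y : Matrix (Fin n) (Fin n) K} (hx : x ∈ T K n)
    (hy : ∀ r c, c ≤ r → y r c = 0) : ∀ r c, c ≤ r → (y * x) r c = 0 := by
  intro r c h
  rw [Matrix.mul_apply]
  refine Finset.sum_eq_zero fun m _ => ?_
  by_cases h1 : m ≤ c
  · rw [hy r m (h1.trans h), zero_mul]
  · rw [hx m c h1, mul_zero]

/-- conjugation by an upper triangular matrix -/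
theorem conj_le (g h Y : Matrix (Fin n) (Fin n) K) (hg : g ∈ T K n) (hh : h ∈ T K n)
    (h1 : g * h = 1) (h2 : h * g = 1) :
    Module.finrank K (LinearMap.ker (Phi (h * Y * g))) ≤
      Module.finrank K (LinearMap.ker (Phi Y)) := by
  let f : LinearMap.ker (Phi (h * Y * g)) →ₗ[K] LinearMap.ker (Phi Y) :=
    { toFun := fun x => ⟨⟨g * x.1.1 * h, upper_mul (upper_mul hg x.1.2) hh⟩, by
        rw [mem_ker_Phi]
        have hx := (mem_ker_Phi _ _).1 x.2
        have h3 := strict_mul_right hh (strict_mul_left hg hx)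
        have h4 : g * (h * Y * g * x.1.1 - x.1.1 * (h * Y * g)) * h =
            Y * (g * x.1.1 * h) - g * x.1.1 * h * Y := by
          have e1 : g * (h * Y * g * x.1.1) * h = (g * h) * Y * (g * x.1.1 * h) := by
            noncomm_ring
          have e2 : g * (x.1.1 * (h * Y * g)) * h = g * x.1.1 * h * Y * (g * h) := by
            noncomm_ring
          rw [mul_sub, sub_mul, e1, e2, h1, one_mul, mul_one]
        rw [h4] at h3
        exact h3⟩
      map_add' := fun x y => by
        refine Subtype.ext (Subtype.ext ?_)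
        change g * (x.1.1 + y.1.1) * h = g * x.1.1 * h + g * y.1.1 * h
        rw [mul_add, add_mul]
      map_smul' := fun t x => by
        refine Subtype.ext (Subtype.ext ?_)
        change g * (t • x.1.1) * h = t • (g * x.1.1 * h)
        rw [mul_smul_comm, smul_mul_assoc] }
  refine LinearMap.finrank_le_finrank_of_injective (f := f) ?_
  intro x y hxy
  have h3 : g * x.1.1 * h = g * y.1.1 * h :=
    congrArg (fun q : LinearMap.ker (Phi Y) => q.1.1) hxy
  have h4 : h * (g * x.1.1 * h) * g = h * (g * y.1.1 * h) * g := by rw [h3]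
  have e : ∀ u : Matrix (Fin n) (Fin n) K, h * (g * u * h) * g = u := by
    intro u
    have : h * (g * u * h) * g = (h * g) * u * (h * g) := by noncomm_ring
    rw [this, h2, one_mul, mul_one]
  rw [e, e] at h4
  exact Subtype.ext (Subtype.ext h4)

end Pool.Agent.Q21.FPc
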