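import Pool.Agent.Q21.FPc.Index

/-!
# The lower bound for the radical: induction `n → n + 2`
-/

set_option autoImplicit false

open Matrix Finset

namespace Pool.Agent.Q21.FPc

variable {K : Type*} [Field K] {n : ℕ}

/-- the middle positions -/
def mid (i : Fin n) : Fin (n + 2) := i.castSucc.succ

/-- the last position -/
def lst (n : ℕ) : Fin (n + 2) := (Fin.last n).succ

theorem mid_val (i : Fin n) : (mid i : ℕ) = i + 1 := rfl
theorem lst_val (n : ℕ) : (lst n : ℕ) = n + 1 := rfl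

theorem sum_split (f : Fin (n + 2) → K) : ∑ m, f m = f 0 + (∑ i : Fin n, f (mid i)) + f (lst n) := by
  rw [Fin.sum_univ_succ, Fin.sum_univ_castSucc]
  exact (add_assoc _ _ _).symm

theorem cases3 {P : Fin (n + 2) → Prop} (h0 : P 0) (hm : ∀ i, P (mid i)) (hl : P (lst n)) :
    ∀ r, P r := by
  intro r
  refine Fin.cases h0 (fun r' => ?_) r
  refine Fin.lastCases hl (fun i => hm i) r'

/-- the matrix with the middle block `x` and the corners `s` -/
def pad (x : Matrix (Fin n) (Fin n) K) (s : K) : Matrix (Fin (n + 2)) (Fin (n + 2)) K := fun r c =>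
  if h : (1 ≤ (r : ℕ) ∧ (r : ℕ) ≤ n) ∧ (1 ≤ (c : ℕ) ∧ (c : ℕ) ≤ n) then
    x ⟨r - 1, by omega⟩ ⟨c - 1, by omega⟩ else if r = c then s else 0

theorem pad_mid (x : Matrix (Fin n) (Fin n) K) (s : K) (i j : Fin n) :
    pad x s (mid i) (mid j) = x i j := by
  have hi := i.2
  have hj := j.2
  have h : (1 ≤ (mid i : ℕ) ∧ (mid i : ℕ) ≤ n) ∧ (1 ≤ (mid j : ℕ) ∧ (mid j : ℕ) ≤ n) := by
    rw [mid_val, mid_val]; omega
  rw [pad, dif_pos h]
  congr 1

theorem pad_row {x : Matrix (Fin n) (Fin n) K} {s : K} {r c : Fin (n + 2)}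
    (h : (r : ℕ) = 0 ∨ (r : ℕ) = n + 1) : pad x s r c = if r = c then s else 0 := by
  rw [pad, dif_neg (by omega)]

theorem pad_col {x : Matrix (Fin n) (Fin n) K} {s : K} {r c : Fin (n + 2)}
    (h : (c : ℕ) = 0 ∨ (c : ℕ) = n + 1) : pad x s r c = if r = c then s else 0 := by
  rw [pad, dif_neg (by omega)]

theorem ne_iff_val {r c : Fin (n + 2)} (h : (r : ℕ) ≠ c) : r ≠ c := fun e => h (by rw [e])

/-- product with the padded matrix, on the right -/
theorem mul_pad (Y : Matrix (Fin (n + 2)) (Fin (n + 2)) K) (x : Matrix (Fin n) (Fin n) K) (s : K)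
    (r : Fin (n + 2)) :
    (Y * pad x s) r 0 = Y r 0 * s ∧ (Y * pad x s) r (lst n) = Y r (lst n) * s ∧
    ∀ j, (Y * pad x s) r (mid j) = ∑ m, Y r (mid m) * x m j := by
  refine ⟨?_, ?_, fun j => ?_⟩
  · rw [Matrix.mul_apply, Finset.sum_eq_single 0]
    · rw [pad_row (Or.inl rfl), if_pos rfl]
    · intro m _ hm
      rw [pad_col (Or.inl rfl), if_neg hm, mul_zero]
    · intro h; exact absurd (Finset.mem_univ _) h
  · rw [Matrix.mul_apply, Finset.sum_eq_single (lst n)]
    · rw [pad_row (Or.inr rfl), if_pos rfl]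
    · intro m _ hm
      rw [pad_col (Or.inr rfl), if_neg hm, mul_zero]
    · intro h; exact absurd (Finset.mem_univ _) h
  · rw [Matrix.mul_apply, sum_split, pad_row (Or.inl rfl), pad_row (Or.inr rfl),
      if_neg (ne_iff_val (by rw [mid_val]; simp)),
      if_neg (ne_iff_val (by rw [mid_val, lst_val]; omega)), mul_zero, mul_zero, zero_add, add_zero]
    exact Finset.sum_congr rfl fun m _ => by rw [pad_mid]

/-- product with the padded matrix, on the left -/
theorem pad_mul (Y : Matrix (Fin (n + 2)) (Fin (n + 2)) K) (x : Matrix (Fin n) (Fin n) K) (s : K)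
    (c : Fin (n + 2)) :
    (pad x s * Y) 0 c = s * Y 0 c ∧ (pad x s * Y) (lst n) c = s * Y (lst n) c ∧
    ∀ i, (pad x s * Y) (mid i) c = ∑ m, x i m * Y (mid m) c := by
  refine ⟨?_, ?_, fun i => ?_⟩
  · rw [Matrix.mul_apply, Finset.sum_eq_single 0]
    · rw [pad_row (Or.inl rfl), if_pos rfl]
    · intro m _ hm
      rw [pad_row (Or.inl rfl), if_neg (Ne.symm hm), zero_mul]
    · intro h; exact absurd (Finset.mem_univ _) h
  · rw [Matrix.mul_apply, Finset.sum_eq_single (lst n)]
    · rw [pad_row (Or.inr rfl), if_pos rfl]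
    · intro m _ hm
      rw [pad_row (Or.inr rfl), if_neg (Ne.symm hm), zero_mul]
    · intro h; exact absurd (Finset.mem_univ _) h
  · rw [Matrix.mul_apply, sum_split, pad_col (Or.inl rfl), pad_col (Or.inr rfl),
      if_neg (ne_iff_val (by rw [mid_val]; simp)),
      if_neg (ne_iff_val (by rw [mid_val, lst_val]; omega)), zero_mul, zero_mul, zero_add, add_zero]
    exact Finset.sum_congr rfl fun m _ => by rw [pad_mid]

/-- the step for a matrix in normal form -/
theorem step_clean (Y : Matrix (Fin (n + 2)) (Fin (n + 2)) K) (h1 : ∀ i, Y (mid i) 0 = 0)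
    (h2 : ∀ j, Y (lst n) (mid j) = 0) :
    Module.finrank K (LinearMap.ker (Phi (fun i j : Fin n => Y (mid i) (mid j)))) + 1 ≤
      Module.finrank K (LinearMap.ker (Phi Y)) := by
  obtain ⟨M, hM⟩ : ∃ M : Matrix (Fin n) (Fin n) K, M = fun i j => Y (mid i) (mid j) := ⟨_, rfl⟩
  rw [← hM]
  have hM' : ∀ i j, M i j = Y (mid i) (mid j) := fun i j => by rw [hM]
  clear hM
  have hup : ∀ (x : Matrix (Fin n) (Fin n) K) (s : K), x ∈ T K n → pad x s ∈ T K (n + 2) := by
    intro x s hx r c hrc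
    rw [not_le, Fin.lt_def] at hrc
    rw [pad]
    by_cases h : (1 ≤ (r : ℕ) ∧ (r : ℕ) ≤ n) ∧ (1 ≤ (c : ℕ) ∧ (c : ℕ) ≤ n)
    · rw [dif_pos h]
      refine hx _ _ fun h' => ?_
      have h2 := Fin.le_def.1 h'
      simp only [] at h2
      omega
    · rw [dif_neg h, if_neg (ne_iff_val (by omega))]
  have hmem : ∀ (x : LinearMap.ker (Phi M)) (s : K),
      (⟨pad x.1.1 s, hup _ s x.1.2⟩ : T K (n + 2)) ∈ LinearMap.ker (Phi Y) := by
    intro x s
    have hx := (mem_ker_Phi _ _).1 x.2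
    rw [mem_ker_Phi]
    refine cases3 ?_ (fun i => ?_) ?_
    · refine cases3 ?_ (fun j => ?_) ?_
      · intro _
        rw [Matrix.sub_apply, (mul_pad Y x.1.1 s 0).1, (pad_mul Y x.1.1 s 0).1]
        ring
      · intro h; rw [Fin.le_def, mid_val] at h; simp at h
      · intro h; rw [Fin.le_def, lst_val] at h; simp at h
    · refine cases3 ?_ (fun j => ?_) ?_
      · intro _
        rw [Matrix.sub_apply, (mul_pad Y x.1.1 s _).1, (pad_mul Y x.1.1 s 0).2.2, h1 i, zero_mul,
          zero_sub, neg_eq_zero]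
        exact Finset.sum_eq_zero fun m _ => by rw [h1 m, mul_zero]
      · intro h
        rw [Matrix.sub_apply, (mul_pad Y x.1.1 s _).2.2, (pad_mul Y x.1.1 s _).2.2]
        have h3 := hx i j (by
          rw [Fin.le_def, mid_val, mid_val] at h
          rw [Fin.le_def]
          omega)
        rw [Matrix.sub_apply, Matrix.mul_apply, Matrix.mul_apply] at h3
        simp only [hM'] at h3
        exact h3
      · intro h
        rw [Fin.le_def, lst_val, mid_val] at h
        have := i.2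
        omega
    · refine cases3 ?_ (fun j => ?_) ?_
      · intro _
        rw [Matrix.sub_apply, (mul_pad Y x.1.1 s _).1, (pad_mul Y x.1.1 s 0).2.1]
        ring
      · intro _
        rw [Matrix.sub_apply, (mul_pad Y x.1.1 s _).2.2, (pad_mul Y x.1.1 s _).2.1, h2 j, mul_zero,
          sub_zero]
        exact Finset.sum_eq_zero fun m _ => by rw [h2 m, zero_mul]
      · intro _
        rw [Matrix.sub_apply, (mul_pad Y x.1.1 s _).2.1, (pad_mul Y x.1.1 s _).2.1]
        ring
  let f : (LinearMap.ker (Phi M) × K) →ₗ[K] LinearMap.ker (Phi Y) :=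
    { toFun := fun q => ⟨⟨pad q.1.1.1 q.2, hup _ q.2 q.1.1.2⟩, hmem q.1 q.2⟩
      map_add' := fun q q' => by
        refine Subtype.ext (Subtype.ext (Matrix.ext fun r c => ?_))
        change pad (q.1.1.1 + q'.1.1.1) (q.2 + q'.2) r c = pad q.1.1.1 q.2 r c + pad q'.1.1.1 q'.2 r c
        simp only [pad]
        split_ifs
        · rfl
        · rfl
        · rw [add_zero]
      map_smul' := fun t q => by
        refine Subtype.ext (Subtype.ext (Matrix.ext fun r c => ?_))
        change pad (t • q.1.1.1) (t • q.2) r c = t * pad q.1.1.1 q.2 r c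
        simp only [pad]
        split_ifs
        · rfl
        · rfl
        · rw [mul_zero] }
  have hf : Function.Injective f := by
    intro q q' h
    have h3 : pad q.1.1.1 q.2 = pad q'.1.1.1 q'.2 :=
      congrArg (fun u : LinearMap.ker (Phi Y) => u.1.1) h
    refine Prod.ext (Subtype.ext (Subtype.ext (Matrix.ext fun i j => ?_))) ?_
    · have := congrFun (congrFun h3 (mid i)) (mid j)
      rwa [pad_mid, pad_mid] at this
    · have := congrFun (congrFun h3 0) 0
      rwa [pad_row (Or.inl rfl), pad_row (Or.inl rfl), if_pos rfl, if_pos rfl] at this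
  have h4 := LinearMap.finrank_le_finrank_of_injective hf
  rwa [Module.finrank_prod, Module.finrank_self] at h4

/-- the step for a matrix with a nonzero corner -/
theorem step (Y : Matrix (Fin (n + 2)) (Fin (n + 2)) K) (hc : Y (lst n) 0 ≠ 0) (ρ : ℕ)
    (ih : ∀ M : Matrix (Fin n) (Fin n) K, ρ ≤ Module.finrank K (LinearMap.ker (Phi M))) :
    ρ + 1 ≤ Module.finrank K (LinearMap.ker (Phi Y)) := by
  have hl0 : lst n ≠ 0 := ne_iff_val (by rw [lst_val]; simp)
  have hm0 : ∀ i : Fin n, mid i ≠ 0 := fun i => ne_iff_val (by rw [mid_val]; simp)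
  have hml : ∀ i : Fin n, mid i ≠ lst n := fun i => ne_iff_val (by
    rw [mid_val, lst_val]; have := i.2; omega)
  -- first conjugation
  obtain ⟨A, hA⟩ : ∃ A : Matrix (Fin (n + 2)) (Fin (n + 2)) K,
      ∀ r c, A r c = if c = lst n ∧ r ≠ lst n then Y r 0 / Y (lst n) 0 else 0 := ⟨_, fun _ _ => rfl⟩
  have hAr : ∀ c, A (lst n) c = 0 := fun c => by rw [hA, if_neg (by tauto)]
  have hAc : ∀ r c, c ≠ lst n → A r c = 0 := fun r c h => by rw [hA, if_neg (by tauto)]
  have hAA : A * A = 0 := by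
    refine Matrix.ext fun r c => ?_
    rw [Matrix.mul_apply]
    refine Finset.sum_eq_zero fun m _ => ?_
    by_cases hm : m = lst n
    · rw [hm, hAr, mul_zero]
    · rw [hAc r m hm, zero_mul]
  have hAT : A ∈ T K (n + 2) := by
    intro r c h
    refine hAc r c fun h2 => h ?_
    rw [h2]
    change r ≤ lst n
    rw [Fin.le_def, lst_val]
    omega
  have h1T : (1 : Matrix (Fin (n + 2)) (Fin (n + 2)) K) ∈ T K (n + 2) := by
    intro r c h
    exact Matrix.one_apply_ne (fun e => h (by rw [e]))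
  obtain ⟨Y1, hY1⟩ : ∃ Y1, Y1 = (1 - A) * Y * (1 + A) := ⟨_, rfl⟩
  have hle1 : Module.finrank K (LinearMap.ker (Phi Y1)) ≤ Module.finrank K (LinearMap.ker (Phi Y)) := by
    rw [hY1]
    refine conj_le (1 + A) (1 - A) Y (add_mem h1T hAT) (sub_mem h1T hAT) ?_ ?_
    · rw [add_mul, mul_sub, mul_sub, hAA]; simp
    · rw [sub_mul, mul_add, mul_add, hAA]; simp
  have e1 : ∀ r c, c ≠ lst n → Y1 r c = Y r c - A r (lst n) * Y (lst n) c := by
    intro r c h
    have e2 : ∀ W : Matrix (Fin (n + 2)) (Fin (n + 2)) K, (W * A) r c = 0 := by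
      intro W
      rw [Matrix.mul_apply]
      exact Finset.sum_eq_zero fun m _ => by rw [hAc m c h, mul_zero]
    have e3 : (A * Y) r c = A r (lst n) * Y (lst n) c := by
      rw [Matrix.mul_apply, Finset.sum_eq_single (lst n)]
      · intro m _ hm
        rw [hAc r m hm, zero_mul]
      · intro h; exact absurd (Finset.mem_univ _) h
    rw [hY1, mul_add, mul_one, Matrix.add_apply, e2, add_zero, sub_mul, one_mul, Matrix.sub_apply,
      e3]
  have f1 : ∀ i, Y1 (mid i) 0 = 0 := by
    intro i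
    rw [e1 _ _ (Ne.symm hl0), hA, if_pos ⟨rfl, hml i⟩, div_mul_cancel₀ _ hc, sub_self]
  have f2 : Y1 (lst n) 0 = Y (lst n) 0 := by
    rw [e1 _ _ (Ne.symm hl0), hAr, zero_mul, sub_zero]
  -- second conjugation
  obtain ⟨B, hB⟩ : ∃ B : Matrix (Fin (n + 2)) (Fin (n + 2)) K,
      ∀ r c, B r c = if r = 0 ∧ c ≠ 0 then -(Y1 (lst n) c / Y (lst n) 0) else 0 :=
    ⟨_, fun _ _ => rfl⟩
  have hBc : ∀ r, B r 0 = 0 := fun c => by rw [hB, if_neg (by tauto)]
  have hBr : ∀ r c, r ≠ 0 → B r c = 0 := fun r c h => by rw [hB, if_neg (by tauto)]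
  have hBB : B * B = 0 := by
    refine Matrix.ext fun r c => ?_
    rw [Matrix.mul_apply]
    refine Finset.sum_eq_zero fun m _ => ?_
    by_cases hm : m = 0
    · rw [hm, hBc, zero_mul]
    · rw [hBr m c hm, mul_zero]
  have hBT : B ∈ T K (n + 2) := by
    intro r c h
    refine hBr r c fun h2 => h ?_
    rw [h2]
    exact Fin.zero_le _
  obtain ⟨Y2, hY2⟩ : ∃ Y2, Y2 = (1 - B) * Y1 * (1 + B) := ⟨_, rfl⟩
  have hle2 : Module.finrank K (LinearMap.ker (Phi Y2)) ≤
      Module.finrank K (LinearMap.ker (Phi Y1)) := by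
    rw [hY2]
    refine conj_le (1 + B) (1 - B) Y1 (add_mem h1T hBT) (sub_mem h1T hBT) ?_ ?_
    · rw [add_mul, mul_sub, mul_sub, hBB]; simp
    · rw [sub_mul, mul_add, mul_add, hBB]; simp
  have e2 : ∀ r c, r ≠ 0 → Y2 r c = Y1 r c + Y1 r 0 * B 0 c := by
    intro r c h
    have e3 : ∀ W : Matrix (Fin (n + 2)) (Fin (n + 2)) K, (B * W) r c = 0 := by
      intro W
      rw [Matrix.mul_apply]
      exact Finset.sum_eq_zero fun m _ => by rw [hBr r m h, zero_mul]
    have e4 : (Y1 * B) r c = Y1 r 0 * B 0 c := by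
      rw [Matrix.mul_apply, Finset.sum_eq_single 0]
      · intro m _ hm
        rw [hBr m c hm, mul_zero]
      · intro h; exact absurd (Finset.mem_univ _) h
    have e5 : Y2 = Y1 + Y1 * B - B * (Y1 * (1 + B)) := by
      rw [hY2]; noncomm_ring
    rw [e5, Matrix.sub_apply, e3, sub_zero, Matrix.add_apply, e4]
  have g1 : ∀ i, Y2 (mid i) 0 = 0 := by
    intro i
    rw [e2 _ _ (hm0 i), f1 i, zero_mul, add_zero]
  have g2 : ∀ j, Y2 (lst n) (mid j) = 0 := by
    intro j
    rw [e2 _ _ hl0, f2, hB, if_pos ⟨rfl, hm0 j⟩, mul_neg, mul_div_cancel₀ _ hc]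
    ring
  have h3 := step_clean Y2 g1 g2
  have h4 := ih (fun i j : Fin n => Y2 (mid i) (mid j))
  omega

/-- the radical of the form `tr(Y [x, y])` on the upper triangular matrices -/
theorem radical_ge [Infinite K] : ∀ (n : ℕ) (Y : Matrix (Fin n) (Fin n) K),
    (n + 1) / 2 ≤ Module.finrank K (LinearMap.ker (Phi Y))
  | 0, _ => by simp
  | 1, Y => by
    have h1 : (1 : Matrix (Fin 1) (Fin 1) K) ∈ T K 1 := by
      intro r c h
      exact Matrix.one_apply_ne (fun e => h (by rw [e]))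
    have h2 : (⟨1, h1⟩ : T K 1) ∈ LinearMap.ker (Phi Y) := by
      rw [mem_ker_Phi]
      intro r c _
      rw [mul_one, one_mul, sub_self]
      rfl
    have : Nontrivial (LinearMap.ker (Phi Y)) := by
      refine ⟨⟨⟨⟨1, h1⟩, h2⟩, 0, fun h => ?_⟩⟩
      have h3 : (1 : Matrix (Fin 1) (Fin 1) K) = 0 :=
        congrArg (fun u : LinearMap.ker (Phi Y) => u.1.1) h
      exact one_ne_zero h3
    exact Nat.succ_le_of_lt (Module.finrank_pos (R := K) (M := LinearMap.ker (Phi Y)))
  | n + 2, Y => by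
    have ih := radical_ge n
    have h1 : (n + 2 + 1) / 2 = (n + 1) / 2 + 1 := by omega
    rw [h1]
    by_cases hc : Y (lst n) 0 = 0
    · refine semicont (Phi Y) (Phi (Matrix.single (lst n) 0 1)) _ fun t ht => ?_
      rw [← Phi_add_smul]
      refine step _ ?_ _ ih
      rw [Matrix.add_apply, hc, zero_add, Matrix.smul_apply, Matrix.single_apply_same, smul_eq_mul,
        mul_one]
      exact ht
    · exact step Y hc _ ih

end Pool.Agent.Q21.FPc
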