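import Pool.Agent.Q21.FPc.Index2

/-!
# The complement at the level of `gl_n`
-/

set_option autoImplicit false

open Matrix Finset

namespace Pool.Agent.Q21.FPc

variable {K : Type*} [Field K] {n : ℕ}

theorem inP_smul_one (t : K) : InP (t • (1 : Matrix (Fin n) (Fin n) K)) := by
  intro l _ r c h1 h2
  have : r ≠ c := fun h => by rw [h] at h1; omega
  rw [Matrix.smul_apply, Matrix.one_apply_ne this, smul_zero]

theorem inP_add {x y : Matrix (Fin n) (Fin n) K} (hx : InP x) (hy : InP y) : InP (x + y) := by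
  intro l hl r c h1 h2
  rw [Matrix.add_apply, hx l hl r c h1 h2, hy l hl r c h1 h2, add_zero]

theorem inP_sub {x y : Matrix (Fin n) (Fin n) K} (hx : InP x) (hy : InP y) : InP (x - y) := by
  intro l hl r c h1 h2
  rw [Matrix.sub_apply, hx l hl r c h1 h2, hy l hl r c h1 h2, sub_zero]

theorem inP_mul {x y : Matrix (Fin n) (Fin n) K} (hx : InP x) (hy : InP y) : InP (x * y) := by
  intro l hl r c h1 h2
  rw [Matrix.mul_apply]
  refine Finset.sum_eq_zero fun m _ => ?_
  by_cases h : (m : ℕ) < l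
  · rw [hx l hl r m h1 h, zero_mul]
  · rw [hy l hl m c (by omega) h2, mul_zero]

theorem inP_upper {x : Matrix (Fin n) (Fin n) K} (hx : ∀ r c : Fin n, c < r → x r c = 0) :
    InP x := by
  intro l _ r c h1 h2
  refine hx r c ?_
  rw [Fin.lt_def]
  omega

/-- the elements of the centraliser in the parabolic are scalar -/
theorem scalar (hn : 3 ≤ n) (x : Matrix (Fin n) (Fin n) K) (hP : InP x)
    (hc : x * E K n = E K n * x) : ∃ t : K, x = t • 1 := by
  obtain ⟨o, ho⟩ : ∃ o : Fin n, (o : ℕ) = 0 := ⟨⟨0, by omega⟩, rfl⟩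
  refine ⟨x o o, ?_⟩
  have h := key hn (x - x o o • 1) (inP_sub hP (inP_smul_one _)) ?_ ?_
  · exact sub_eq_zero.1 h
  · rw [sub_mul, mul_sub, hc, smul_mul_assoc, mul_smul_comm, one_mul, mul_one]
  · intro o' ho'
    have : o' = o := Fin.ext (by omega)
    rw [this, Matrix.sub_apply, Matrix.smul_apply, Matrix.one_apply_eq, smul_eq_mul, mul_one,
      sub_self]

theorem inf_le (hn : 3 ≤ n) : supp K (SP n) ⊓ cent K n ≤ Submodule.span K {1} := by
  rintro x ⟨h1, h2⟩
  obtain ⟨t, rfl⟩ := scalar hn x ((inP_iff x).2 h1) h2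
  exact Submodule.smul_mem _ _ (Submodule.mem_span_singleton_self _)

theorem dims (hn : 3 ≤ n) :
    supp K (SP n) ⊔ cent K n = ⊤ ∧
    2 * Module.finrank K (supp K (SP n)) ≤ n * (n + 1) + 2 * aa n := by
  have h1 := finrank_supp (K := K) (SP n)
  have h2 := card_SP hn
  have h3 := finrank_cent_ge (K := K) hn
  have h4 := card_le_pairs n
  have h5 := numeric hn _ h4
  have h6 : Module.finrank K (supp K (SP n) ⊓ cent K n : Submodule K _) ≤ 1 :=
    (Submodule.finrank_mono (inf_le hn)).trans 
      ((finrank_span_le_card ({1} : Set (Matrix (Fin n) (Fin n) K))).trans (by simp))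
  have h7 := Submodule.finrank_sup_add_finrank_inf_eq (supp K (SP n)) (cent K n)
  have h8 : Module.finrank K (supp K (SP n) ⊔ cent K n : Submodule K _) ≤
      Module.finrank K (Matrix (Fin n) (Fin n) K) := Submodule.finrank_le _
  have h9 : Module.finrank K (Matrix (Fin n) (Fin n) K) = n * n := by
    rw [Module.finrank_matrix]; simp
  refine ⟨Submodule.eq_top_of_finrank_eq ?_, ?_⟩
  · omega
  · omega

theorem diag_E (i : Fin n) : E K n i i = 0 := E_supp i i (lt_irrefl _)

theorem trace_E : Matrix.trace (E K n) = 0 :=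
  Finset.sum_eq_zero fun i _ => diag_E i

end Pool.Agent.Q21.FPc
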